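import Mathlib

/-!
# MP_7e58b6_lc: Las Vegas automaton size can be quadratic in Las Vegas message complexity

For every alphabet `A` with at least two letters and every `n`,
`G(n) = sup {lvs(L) : L regular, lvmc(L) ≤ n} ≥ ⌊n/4⌋²`.
-/

namespace Pool.Agent.Results.MP_7e58b6_lc.Quadratic

open scoped ENNReal

/-! ### Definitions -/

/-- Las Vegas finite automaton with state set `Q`; `kind q = some true` means accepting, `some false`
rejecting, `none` neutral. -/
structure LVFA (A Q : Type) where
  start : Q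
  step : Q → A → PMF Q
  kind : Q → Option Bool

/-- The distribution of the state reached from `q` after reading `w`. -/
noncomputable def LVFA.runFrom {A Q : Type} (B : LVFA A Q) : Q → List A → PMF Q
  | q, [] => PMF.pure q
  | q, a :: w => (B.step q a).bind fun r => B.runFrom r w

/-- The distribution of the state reached after reading `w`. -/
noncomputable def LVFA.run {A Q : Type} (B : LVFA A Q) (w : List A) : PMF Q := B.runFrom B.start w

/-- `B` recognises `L`: it is never wrong, and gives an answer with probability at least `1/2`. -/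
def LVFA.Recognises {A Q : Type} (B : LVFA A Q) (L : Language A) : Prop :=
  ∀ w : List A,
    (w ∈ L → (∀ q, B.run w q ≠ 0 → B.kind q ≠ some false) ∧
      1 / 2 ≤ ∑' q, {q | B.kind q = some true}.indicator (B.run w) q) ∧
    (w ∉ L → (∀ q, B.run w q ≠ 0 → B.kind q ≠ some true) ∧
      1 / 2 ≤ ∑' q, {q | B.kind q = some false}.indicator (B.run w) q)

/-- `lvs(L)`: the least number of states of an LVFA recognising `L`. -/
noncomputable def lvs {A : Type} (L : Language A) : ℕ∞ :=
  ⨅ (n : ℕ) (_ : ∃ B : LVFA A (Fin n), B.Recognises L), (n : ℕ∞)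

/-- One-way uniform protocol: messages are binary strings; outputs are `some true` (1), `some false`
(0), `none` (?). -/
structure Protocol (A : Type) where
  msg : List A → PMF (List Bool)
  out : List A → List Bool → PMF (Option Bool)

/-- The distribution of the output on inputs `x, y`. -/
noncomputable def Protocol.run {A : Type} (P : Protocol A) (x y : List A) : PMF (Option Bool) :=
  (P.msg x).bind fun m => P.out y m

/-- `P` is a Las Vegas protocol for `L`. -/
def Protocol.IsFor {A : Type} (P : Protocol A) (L : Language A) : Prop :=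
  ∀ x y : List A,
    (x ++ y ∈ L → P.run x y (some false) = 0 ∧ 1 / 2 ≤ P.run x y (some true)) ∧
    (x ++ y ∉ L → P.run x y (some true) = 0 ∧ 1 / 2 ≤ P.run x y (some false))

/-- The number of distinct messages used. -/
noncomputable def Protocol.size {A : Type} (P : Protocol A) : ℕ∞ :=
  {m | ∃ x, P.msg x m ≠ 0}.encard

/-- `lvmc(L)`. -/
noncomputable def lvmc {A : Type} (L : Language A) : ℕ∞ :=
  ⨅ (P : Protocol A) (_ : P.IsFor L), P.size

/-- `G(n) = sup {lvs(L) : L regular, lvmc(L) ≤ n}`. -/
noncomputable def G (A : Type) (n : ℕ) : ℕ∞ :=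
  ⨆ (L : Language A) (_ : L.IsRegular ∧ lvmc L ≤ n), lvs L

/-! ### The lower bound for the macro alphabet -/

/-- Macro letters: increment, swap, copy. -/
inductive Mac | s | x | c

/-- Action of macro letters. -/
def mst {m : ℕ} : ZMod m × ZMod m → Mac → ZMod m × ZMod m
  | (i, j), .s => (i + 1, j)
  | (i, j), .x => (j, i)
  | (i, _), .c => (i, i)

def mrun {m : ℕ} (p : ZMod m × ZMod m) (w : List Mac) : ZMod m × ZMod m := w.foldl mst p

/-- The macro language. -/
def ML (m : ℕ) : Language Mac := {w | (mrun ((0, 0) : ZMod m × ZMod m) w).1 = 0}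

lemma mrun_append {m : ℕ} (p : ZMod m × ZMod m) (u v : List Mac) :
    mrun p (u ++ v) = mrun (mrun p u) v := by
  simp [mrun, List.foldl_append]

lemma mrun_s {m : ℕ} (p : ZMod m × ZMod m) (k : ℕ) :
    mrun p (List.replicate k .s) = (p.1 + k, p.2) := by
  induction k generalizing p with
  | zero => simp [mrun]
  | succ k ih =>
    rw [List.replicate_succ]
    change mrun (mst p .s) _ = _
    rw [ih]
    obtain ⟨i, j⟩ := p
    simp [mst]
    ring

lemma runFrom_append {A Q : Type} (B : LVFA A Q) (q : Q) (u v : List A) :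
    B.runFrom q (u ++ v) = (B.runFrom q u).bind fun r => B.runFrom r v := by
  induction u generalizing q with
  | nil => simp [LVFA.runFrom]
  | cons a u ih => simp [LVFA.runFrom, ih, PMF.bind_bind]

section core

variable {Q : Type} [Fintype Q] {A : Type} (B : LVFA A Q)

/-- Probability (in `ℝ≥0∞`) of being in `S` after reading `w`. -/
noncomputable def P (w : List A) (S : Set Q) : ℝ≥0∞ := ∑ q, S.indicator (B.run w) q

lemma P_transfer (w v : List A) (S T : Set Q)
    (h : ∀ r, B.run w r ≠ 0 → r ∉ T → ∀ r' ∈ S, B.runFrom r v r' = 0) : P B (w ++ v) S ≤ P B w T := by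
  classical
  unfold P
  have h1 : ∀ q, S.indicator (B.run (w ++ v)) q =
      ∑ r, B.run w r * S.indicator (B.runFrom r v) q := by
    intro q
    by_cases hq : q ∈ S
    · simp only [Set.indicator_of_mem hq]
      unfold LVFA.run
      rw [runFrom_append, PMF.bind_apply, tsum_fintype]
    · simp [Set.indicator_of_notMem hq]
  simp_rw [h1]
  rw [Finset.sum_comm]
  refine Finset.sum_le_sum fun r _ => ?_
  rw [← Finset.mul_sum]
  by_cases hr0 : B.run w r = 0
  · simp [hr0]
  by_cases hr : r ∈ T
  · rw [Set.indicator_of_mem hr]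
    refine mul_le_of_le_one_right' ?_
    calc ∑ q, S.indicator (B.runFrom r v) q ≤ ∑ q, B.runFrom r v q := by
          refine Finset.sum_le_sum fun q _ => ?_
          exact Set.indicator_le_self _ _ _
      _ = 1 := by rw [← tsum_fintype (L := .unconditional Q)]; exact PMF.tsum_coe _
  · rw [Set.indicator_of_notMem hr]
    have : ∑ q, S.indicator (B.runFrom r v) q = 0 := by
      refine Finset.sum_eq_zero fun q _ => ?_
      by_cases hq : q ∈ S
      · rw [Set.indicator_of_mem hq]; exact h r hr0 hr q hq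
      · rw [Set.indicator_of_notMem hq]
    rw [this, mul_zero]

lemma P_union_inter (w : List A) (S T : Set Q) :
    P B w (S ∪ T) + P B w (S ∩ T) = P B w S + P B w T := by
  unfold P
  rw [← Finset.sum_add_distrib, ← Finset.sum_add_distrib]
  refine Finset.sum_congr rfl fun q _ => ?_
  by_cases h1 : q ∈ S <;> by_cases h2 : q ∈ T <;> simp [h1, h2]

lemma P_le_one (w : List A) (S : Set Q) : P B w S ≤ 1 := by
  unfold P
  calc ∑ q, S.indicator (B.run w) q ≤ ∑ q, B.run w q :=
        Finset.sum_le_sum fun q _ => Set.indicator_le_self _ _ _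
    _ = 1 := by rw [← tsum_fintype (L := .unconditional Q)]; exact PMF.tsum_coe _

end core

section macroCore

variable {Q : Type} [Fintype Q] {m : ℕ} [NeZero m] (B : LVFA Mac Q)

/-- Macro states compatible with the automaton state `r`. -/
def D (m : ℕ) (r : Q) : Set (ZMod m × ZMod m) :=
  {p | ∃ w, B.run w r ≠ 0 ∧ mrun ((0, 0) : ZMod m × ZMod m) w = p}

omit [Fintype Q] [NeZero m] in
lemma D_step (r r' : Q) (v : List Mac) (h : B.runFrom r v r' ≠ 0) (p : ZMod m × ZMod m)
    (hp : p ∈ D B m r) : mrun p v ∈ D B m r' := by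
  obtain ⟨w, hw, rfl⟩ := hp
  refine ⟨w ++ v, ?_, mrun_append _ _ _⟩
  unfold LVFA.run at *
  rw [runFrom_append, PMF.bind_apply]
  intro h0
  rw [ENNReal.tsum_eq_zero] at h0
  have := h0 r
  simp [hw, h] at this

def K1 (m : ℕ) : Set Q := {r | ∀ p ∈ D B m r, ∀ p' ∈ D B m r, p.1 = p'.1}

def K2 (m : ℕ) : Set Q := {r | ∀ p ∈ D B m r, ∀ p' ∈ D B m r, p.2 = p'.2}

lemma acc_bound (hB : B.Recognises (ML m)) (w v : List Mac)
    (hw : (mrun ((0, 0) : ZMod m × ZMod m) (w ++ v)).1 = 0) (T : Set Q)
    (hT : ∀ r, r ∉ T → ∃ p ∈ D B m r, (mrun p v).1 ≠ 0) : 1 / 2 ≤ P B w T := by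
  have h1 := ((hB (w ++ v)).1 hw).2
  rw [tsum_fintype] at h1
  refine h1.trans ?_
  refine P_transfer B w v _ T ?_
  intro r _ hr r' hr'
  by_contra h0
  obtain ⟨p, hp, hp'⟩ := hT r hr
  obtain ⟨u, hu, hup⟩ := D_step B r r' v h0 p hp
  have := ((hB u).2 (by
    intro h
    apply hp'
    have h' : (mrun ((0, 0) : ZMod m × ZMod m) u).1 = 0 := h
    rw [hup] at h'
    exact h')).1 r' hu
  exact this hr'

lemma exists_neg (i : ZMod m) : ∃ k : ℕ, ∀ a : ZMod m, a + (k : ZMod m) = a - i := by
  refine ⟨(-i).val, fun a => ?_⟩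
  rw [ZMod.natCast_zmod_val]; ring

lemma K1_bound (hB : B.Recognises (ML m)) (w : List Mac) : 1 / 2 ≤ P B w (K1 B m) := by
  obtain ⟨k, hk⟩ := exists_neg ((mrun ((0, 0) : ZMod m × ZMod m) w).1)
  refine acc_bound B hB w (List.replicate k .s) ?_ _ ?_
  · rw [mrun_append, mrun_s, hk]; ring
  · intro r hr
    by_contra hcon
    push Not at hcon
    apply hr
    have : ∀ p ∈ D B m r, p.1 = (mrun ((0, 0) : ZMod m × ZMod m) w).1 := by
      intro p hp
      have := hcon p hp
      rw [mrun_s, hk] at this
      exact sub_eq_zero.1 this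
    intro p hp p' hp'
    rw [this p hp, this p' hp']

lemma K2_bound (hB : B.Recognises (ML m)) (w : List Mac) : 1 / 2 ≤ P B w (K2 B m) := by
  obtain ⟨k, hk⟩ := exists_neg ((mrun ((0, 0) : ZMod m × ZMod m) w).2)
  have hx : ∀ p : ZMod m × ZMod m, mrun p (.x :: List.replicate k .s) = (p.2 + k, p.1) := by
    rintro ⟨i, j⟩
    change mrun (j, i) _ = _
    rw [mrun_s]
  refine acc_bound B hB w (.x :: List.replicate k .s) ?_ _ ?_
  · rw [mrun_append, hx, hk]; ring
  · intro r hr
    by_contra hcon
    push Not at hcon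
    apply hr
    have : ∀ p ∈ D B m r, p.2 = (mrun ((0, 0) : ZMod m × ZMod m) w).2 := by
      intro p hp
      have := hcon p hp
      rw [hx, hk] at this
      exact sub_eq_zero.1 this
    intro p hp p' hp'
    rw [this p hp, this p' hp']

/-- Every macro state is singled out by some automaton state. -/
lemma exists_single (hB : B.Recognises (ML m)) (q : ZMod m × ZMod m) :
    ∃ r, D B m r = {q} := by
  -- a word reaching `q`
  obtain ⟨w, hw⟩ : ∃ w, mrun ((0, 0) : ZMod m × ZMod m) w = q := by
    refine ⟨List.replicate q.2.val .s ++ (.x :: List.replicate q.1.val .s), ?_⟩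
    rw [mrun_append, mrun_s]
    change mrun (0, 0 + ((q.2.val : ℕ) : ZMod m)) _ = _
    rw [mrun_s]
    simp
  -- a support state in `K1 ∩ K2` on a word reaching `q` does the job
  have key : ∀ u, mrun ((0, 0) : ZMod m × ZMod m) u = q → P B u (K1 B m ∩ K2 B m) ≠ 0 →
      ∃ r, D B m r = {q} := by
    intro u hu h0
    obtain ⟨r, -, hr⟩ := Finset.exists_ne_zero_of_sum_ne_zero h0
    have hr' : r ∈ K1 B m ∩ K2 B m := Set.mem_of_indicator_ne_zero hr
    rw [Set.indicator_of_mem hr'] at hr
    have hq : q ∈ D B m r := ⟨u, hr, hu⟩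
    refine ⟨r, Set.eq_singleton_iff_unique_mem.2 ⟨hq, fun p hp => ?_⟩⟩
    exact Prod.ext (hr'.1 p hp q hq) (hr'.2 p hp q hq)
  by_cases h0 : P B w (K1 B m ∩ K2 B m) = 0
  swap
  · exact key w hw h0
  -- the word `c x s^k x`
  set k : ℕ := (q.2 - q.1).val with hk
  set v : List Mac := .c :: .x :: (List.replicate k .s ++ [.x]) with hv
  have hvrun : ∀ p : ZMod m × ZMod m, mrun p v = (p.1, p.1 + (q.2 - q.1)) := by
    rintro ⟨i, j⟩
    change mrun (i, i) (List.replicate k .s ++ [.x]) = _
    rw [mrun_append, mrun_s]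
    change (i, i + (k : ZMod m)) = _
    rw [hk, ZMod.natCast_zmod_val]
  have hle : P B w (K1 B m) ≤ 1 / 2 := by
    have h1 := P_union_inter B w (K1 B m) (K2 B m)
    rw [h0, add_zero] at h1
    have h2 : P B w (K1 B m) + P B w (K2 B m) ≤ 1 := by rw [← h1]; exact P_le_one _ _ _
    have h3 := K2_bound B hB w
    have h4 : P B w (K1 B m) + 1 / 2 ≤ 1 / 2 + 1 / 2 := by
      rw [ENNReal.add_halves]
      exact (add_le_add_right h3 _).trans h2
    exact (ENNReal.add_le_add_iff_right (by simp)).1 h4
  have hun : P B (w ++ v) (K1 B m ∪ K2 B m) ≤ 1 / 2 := by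
    refine (P_transfer B w v _ (K1 B m) ?_).trans hle
    intro r _ hr r' hr'
    by_contra hne
    simp only [K1, Set.mem_ofPred_eq, not_forall] at hr
    obtain ⟨p, hp, p', hp', hpp⟩ := hr
    have e1 := D_step B r r' v hne p hp
    have e2 := D_step B r r' v hne p' hp'
    rw [hvrun] at e1 e2
    rcases hr' with h | h
    · have h5 : ((p.1, p.1 + (q.2 - q.1)) : ZMod m × ZMod m).1 =
          ((p'.1, p'.1 + (q.2 - q.1)) : ZMod m × ZMod m).1 := h _ e1 _ e2
      exact hpp h5
    · have h5 : ((p.1, p.1 + (q.2 - q.1)) : ZMod m × ZMod m).2 =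
          ((p'.1, p'.1 + (q.2 - q.1)) : ZMod m × ZMod m).2 := h _ e1 _ e2
      exact hpp (add_right_cancel h5)
  refine key (w ++ v) (by rw [mrun_append, hvrun, hw]; simp) ?_
  intro h0'
  have h1 := P_union_inter B (w ++ v) (K1 B m) (K2 B m)
  rw [h0', add_zero] at h1
  have h2 : (1 : ℝ≥0∞) ≤ 1 / 2 := by
    calc (1 : ℝ≥0∞) = 1 / 2 + 1 / 2 := (ENNReal.add_halves 1).symm
      _ ≤ P B (w ++ v) (K1 B m) + P B (w ++ v) (K2 B m) :=
          add_le_add (K1_bound B hB _) (K2_bound B hB _)
      _ ≤ 1 / 2 := by rw [← h1]; exact hun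
  norm_num at h2

lemma card_ge (hB : B.Recognises (ML m)) : m ^ 2 ≤ Fintype.card Q := by
  choose f hf using exists_single B hB
  have hinj : Function.Injective f := by
    intro p p' h
    have := hf p
    rw [h, hf p'] at this
    exact (Set.singleton_injective this).symm
  have := Fintype.card_le_of_injective f hinj
  rw [Fintype.card_prod, ZMod.card] at this
  rw [sq]; exact this

end macroCore

/-! ### The language over an arbitrary alphabet -/

section lang

variable {A : Type} (a0 a1 : A)

open Classical in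
/-- The transition function of the automaton. -/
noncomputable def δ {m : ℕ} : ZMod m × ZMod m × Bool → A → ZMod m × ZMod m × Bool
  | (i, j, b), a =>
    if a = a0 then (if b then (j, i, false) else (i + 1, j, false))
    else if a = a1 then (if b then (i, i, false) else (i, j, true))
    else (i, j, b)

noncomputable def drun {m : ℕ} (p : ZMod m × ZMod m × Bool) (w : List A) :
    ZMod m × ZMod m × Bool := w.foldl (δ a0 a1) p

/-- The language. -/
def L (m : ℕ) : Language A := {w | (drun a0 a1 ((0, 0, false) : ZMod m × ZMod m × Bool) w).1 = 0}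

lemma L_regular (m : ℕ) [NeZero m] : (L a0 a1 m).IsRegular := by
  refine ⟨ZMod m × ZMod m × Bool, inferInstance,
    ⟨δ a0 a1, (0, 0, false), {p | p.1 = 0}⟩, ?_⟩
  rfl

/-- The code of a macro letter. -/
def code : Mac → List A
  | .s => [a0]
  | .x => [a1, a0]
  | .c => [a1, a1]

def enc (w : List Mac) : List A := w.flatMap (code a0 a1)

lemma drun_code {m : ℕ} (hne : a0 ≠ a1) (p : ZMod m × ZMod m) (t : Mac) :
    drun a0 a1 (p.1, p.2, false) (code a0 a1 t) = ((mst p t).1, (mst p t).2, false) := by
  obtain ⟨i, j⟩ := p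
  cases t <;> simp [drun, code, δ, mst, hne.symm]

lemma drun_enc {m : ℕ} (hne : a0 ≠ a1) (p : ZMod m × ZMod m) (w : List Mac) :
    drun a0 a1 (p.1, p.2, false) (enc a0 a1 w) = ((mrun p w).1, (mrun p w).2, false) := by
  induction w generalizing p with
  | nil => rfl
  | cons t w ih =>
    have : drun a0 a1 (p.1, p.2, false) (enc a0 a1 (t :: w)) =
        drun a0 a1 (drun a0 a1 (p.1, p.2, false) (code a0 a1 t)) (enc a0 a1 w) := by
      simp [drun, enc, List.flatMap_cons, List.foldl_append]
    rw [this, drun_code a0 a1 hne]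
    exact ih (mst p t)

/-- The macro automaton. -/
noncomputable def macroAut {Q : Type} (B : LVFA A Q) : LVFA Mac Q where
  start := B.start
  step q t := B.runFrom q (code a0 a1 t)
  kind := B.kind

lemma macro_run {Q : Type} (B : LVFA A Q) (w : List Mac) :
    (macroAut a0 a1 B).run w = B.run (enc a0 a1 w) := by
  have : ∀ q, (macroAut a0 a1 B).runFrom q w = B.runFrom q (enc a0 a1 w) := by
    induction w with
    | nil => intro q; rfl
    | cons t w ih =>
      intro q
      have e : enc a0 a1 (t :: w) = code a0 a1 t ++ enc a0 a1 w := by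
        simp [enc, List.flatMap_cons]
      rw [e, runFrom_append]
      simp only [LVFA.runFrom, ih]
      rfl
  exact this _

lemma macro_rec {Q : Type} {m : ℕ} (hne : a0 ≠ a1) (B : LVFA A Q)
    (hB : B.Recognises (L a0 a1 m)) : (macroAut a0 a1 B).Recognises (ML m) := by
  have hmem : ∀ w, w ∈ ML m ↔ enc a0 a1 w ∈ L a0 a1 m := by
    intro w
    change (mrun ((0, 0) : ZMod m × ZMod m) w).1 = 0 ↔
      (drun a0 a1 ((0, 0, false) : ZMod m × ZMod m × Bool) (enc a0 a1 w)).1 = 0
    rw [drun_enc a0 a1 hne ((0, 0) : ZMod m × ZMod m) w]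
  intro w
  rw [hmem w, macro_run]
  exact hB (enc a0 a1 w)

lemma lvs_ge (m : ℕ) [NeZero m] (hne : a0 ≠ a1) : ((m ^ 2 : ℕ) : ℕ∞) ≤ lvs (L a0 a1 m) := by
  unfold lvs
  refine le_iInf₂ fun n hn => ?_
  obtain ⟨B, hB⟩ := hn
  have := card_ge (macroAut a0 a1 B) (macro_rec a0 a1 hne B hB)
  rw [Fintype.card_fin] at this
  exact_mod_cast this

/-! ### The protocol -/

lemma exists_src {m : ℕ} (y : List A) (b : Bool) : ∃ t : Bool × ZMod m, ∀ i j : ZMod m,
    (drun a0 a1 (i, j, b) y).1 = (if t.1 then i else j) + t.2 := by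
  induction y generalizing b with
  | nil => exact ⟨(true, 0), fun i j => by simp [drun]⟩
  | cons a y ih =>
    have hs : ∀ i j : ZMod m, drun a0 a1 (i, j, b) (a :: y) = drun a0 a1 (δ a0 a1 (i, j, b) a) y :=
      fun i j => rfl
    simp only [hs, δ]
    by_cases h0 : a = a0
    · simp only [h0, if_true]
      cases b
      · obtain ⟨⟨c, k⟩, h⟩ := ih false
        refine ⟨(c, if c then k + 1 else k), fun i j => ?_⟩
        simp only [Bool.false_eq_true, if_false]
        rw [h]
        cases c <;> simp
        ring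
      · obtain ⟨⟨c, k⟩, h⟩ := ih false
        refine ⟨(!c, k), fun i j => ?_⟩
        simp only [if_true]
        rw [h]
        cases c <;> simp
    · by_cases h1 : a = a1
      · simp only [if_neg h0, if_pos h1]
        cases b
        · obtain ⟨⟨c, k⟩, h⟩ := ih true
          refine ⟨(c, k), fun i j => ?_⟩
          simp only [Bool.false_eq_true, if_false]
          rw [h]
        · obtain ⟨⟨c, k⟩, h⟩ := ih false
          refine ⟨(true, k), fun i j => ?_⟩
          simp only [if_true]
          rw [h]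
          cases c <;> simp
      · simp only [if_neg h0, if_neg h1]
        exact ih b

noncomputable def src (m : ℕ) (y : List A) (b : Bool) : Bool × ZMod m := (exists_src a0 a1 y b).choose

lemma src_spec {m : ℕ} (y : List A) (b : Bool) (i j : ZMod m) :
    (drun a0 a1 (i, j, b) y).1 = (if (src a0 a1 m y b).1 then i else j) + (src a0 a1 m y b).2 :=
  (exists_src a0 a1 y b).choose_spec i j

/-- Message type: which coordinate, its value, the bit. -/
abbrev Msg (m : ℕ) := Bool × ZMod m × Bool

noncomputable def me (m : ℕ) [NeZero m] (t : Msg m) : List Bool :=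
  List.replicate (Fintype.equivFin (Msg m) t).val true

lemma me_inj (m : ℕ) [NeZero m] : Function.Injective (me m) := by
  intro t t' h
  have h' := congrArg List.length h
  simp only [me, List.length_replicate] at h'
  exact (Fintype.equivFin (Msg m)).injective (Fin.ext h')

noncomputable def md (m : ℕ) [NeZero m] : List Bool → Msg m := Function.invFun (me m)

lemma md_me (m : ℕ) [NeZero m] (t : Msg m) : md m (me m t) = t :=
  Function.leftInverse_invFun (me_inj m) t

noncomputable def pm {m : ℕ} (p : ZMod m × ZMod m × Bool) (c : Bool) : Msg m :=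
  (c, if c then p.1 else p.2.1, p.2.2)

noncomputable def ans (m : ℕ) (y : List A) (t : Msg m) : Option Bool :=
  if t.1 = (src a0 a1 m y t.2.2).1 then some (decide (t.2.1 + (src a0 a1 m y t.2.2).2 = 0)) else none

/-- The protocol. -/
noncomputable def prot (m : ℕ) [NeZero m] : Protocol A where
  msg x := (PMF.uniformOfFintype Bool).map fun c =>
    me m (pm (drun a0 a1 ((0, 0, false) : ZMod m × ZMod m × Bool) x) c)
  out y s := PMF.pure (ans a0 a1 m y (md m s))

lemma prot_run (m : ℕ) [NeZero m] (x y : List A) :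
    (prot a0 a1 m).run x y = (PMF.uniformOfFintype Bool).map fun c =>
      ans a0 a1 m y (pm (drun a0 a1 ((0, 0, false) : ZMod m × ZMod m × Bool) x) c) := by
  unfold Protocol.run prot
  simp only
  rw [PMF.bind_map]
  simp only [Function.comp_def, md_me]
  rfl

lemma ans_pm (m : ℕ) [NeZero m] (x y : List A) (c : Bool) :
    ans a0 a1 m y (pm (drun a0 a1 ((0, 0, false) : ZMod m × ZMod m × Bool) x) c) =
      if c = (src a0 a1 m y (drun a0 a1 ((0, 0, false) : ZMod m × ZMod m × Bool) x).2.2).1 then
        some (decide ((drun a0 a1 ((0, 0, false) : ZMod m × ZMod m × Bool) (x ++ y)).1 = 0))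
      else none := by
  have happ : drun a0 a1 ((0, 0, false) : ZMod m × ZMod m × Bool) (x ++ y) =
      drun a0 a1 (drun a0 a1 ((0, 0, false) : ZMod m × ZMod m × Bool) x) y := by
    simp [drun, List.foldl_append]
  rw [happ]
  obtain ⟨i, j, b⟩ := drun a0 a1 ((0, 0, false) : ZMod m × ZMod m × Bool) x
  simp only [ans, pm]
  by_cases h1 : c = (src a0 a1 m y b).1
  · rw [if_pos h1, if_pos h1, src_spec, ← h1]
  · rw [if_neg h1, if_neg h1]

lemma prot_isFor (m : ℕ) [NeZero m] : (prot a0 a1 m).IsFor (L a0 a1 m) := by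
  intro x y
  rw [prot_run]
  simp only [ans_pm]
  set c0 := (src a0 a1 m y (drun a0 a1 ((0, 0, false) : ZMod m × ZMod m × Bool) x).2.2).1
  have hm : x ++ y ∈ L a0 a1 m ↔
      (drun a0 a1 ((0, 0, false) : ZMod m × ZMod m × Bool) (x ++ y)).1 = 0 := Iff.rfl
  constructor
  · intro h
    rw [hm] at h
    simp only [h, decide_true]
    constructor
    · rw [PMF.map_apply, tsum_bool]
      cases c0 <;> simp
    · rw [PMF.map_apply, tsum_bool]
      cases c0 <;> simp [PMF.uniformOfFintype_apply]
  · intro h
    rw [hm] at h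
    simp only [h, decide_false]
    constructor
    · rw [PMF.map_apply, tsum_bool]
      cases c0 <;> simp
    · rw [PMF.map_apply, tsum_bool]
      cases c0 <;> simp [PMF.uniformOfFintype_apply]

lemma lvmc_le (m : ℕ) [NeZero m] : lvmc (L a0 a1 m) ≤ (4 * m : ℕ) := by
  unfold lvmc
  refine (iInf₂_le (prot a0 a1 m) (prot_isFor a0 a1 m)).trans ?_
  unfold Protocol.size
  have hsub : {s | ∃ x, (prot a0 a1 m).msg x s ≠ 0} ⊆ Set.range (me m) := by
    rintro s ⟨x, hx⟩
    have : s ∈ ((prot a0 a1 m).msg x).support := hx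
    unfold prot at this
    simp only [PMF.support_map] at this
    obtain ⟨c, -, rfl⟩ := this
    exact ⟨_, rfl⟩
  refine (Set.encard_le_encard hsub).trans ?_
  rw [← Set.image_univ]
  refine (Set.encard_image_le _ _).trans ?_
  rw [Set.encard_univ, ENat.card_eq_coe_fintype_card]
  simp only [Msg, Fintype.card_prod, Fintype.card_bool, ZMod.card]
  norm_cast
  ring_nf
  rfl

end lang

/-- **Theorem.** Over every alphabet with at least two letters (in particular every such finite
alphabet), `G(n) ≥ ⌊n/4⌋²` for all `n`. Together with the known bound `G(n) ≤ n²` this gives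
`G(n) = Θ(n²)`: the gap between `lvmc` and `lvs` can be quadratic. -/
theorem result (A : Type) [Nontrivial A] (n : ℕ) : (((n / 4) ^ 2 : ℕ) : ℕ∞) ≤ G A n := by
  obtain ⟨a0, a1, hne⟩ := exists_pair_ne A
  rcases Nat.eq_zero_or_pos (n / 4) with h | h
  · rw [h]; simp
  · have : NeZero (n / 4) := ⟨by omega⟩
    refine (lvs_ge a0 a1 (n / 4) hne).trans ?_
    unfold G
    refine le_iSup₂_of_le (L a0 a1 (n / 4))
      ⟨L_regular a0 a1 (n / 4), (lvmc_le a0 a1 (n / 4)).trans ?_⟩ le_rfl
    exact_mod_cast Nat.mul_div_le n 4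

end Pool.Agent.Results.MP_7e58b6_lc.Quadratic
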